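import Pool.Agent.Helper38.ZS.Stmts

/-!
# Zonotope signing, module 6: reconstruction of a piece from a sparse integer sample
-/

namespace Pool.Agent.Helper3.ZS

open Finset Pool.Agent.Helper38.ZS
open scoped Classical

noncomputable section

/-! ## the cut off -/

theorem TT_mono {x y : ℝ} (h : y ≤ x) : TT y ≤ TT x := by
  simp only [TT, cl, max_def, min_def]
  split_ifs <;> linarith

theorem TT_lip' {x y : ℝ} (h : y ≤ x) : TT x - TT y ≤ x - y := by
  simp only [TT, cl, max_def, min_def]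
  split_ifs <;> linarith

theorem TT_lip (x y : ℝ) : |TT x - TT y| ≤ |x - y| := by
  rcases le_total y x with h | h
  · rw [abs_of_nonneg (by linarith [TT_mono h]), abs_of_nonneg (by linarith)]
    exact TT_lip' h
  · rw [abs_of_nonpos (by linarith [TT_mono h]), abs_of_nonpos (by linarith)]
    linarith [TT_lip' h]

theorem TT_zero {x : ℝ} (h : |x| ≤ 1) : TT x = 0 := by
  obtain ⟨h1, h2⟩ := abs_le.1 h
  simp only [TT, cl, max_def, min_def]
  split_ifs <;> linarith

theorem TT_abs (x : ℝ) : |TT x| ≤ 1 := by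
  rw [abs_le]
  constructor
  · simp only [TT, cl, max_def, min_def]
    split_ifs <;> linarith
  · simp only [TT, cl, max_def, min_def]
    split_ifs <;> linarith

/-! ## rounding of one number -/

theorem log_two_add_le {s : ℝ} (hs : 1 ≤ s) : Real.log (2 + s) ≤ 2 * s ^ (19 / 20 : ℝ) := by
  have hs0 : 0 < s := by linarith
  have h1 : Real.log (2 + s) ≤ Real.log (3 * s) := Real.log_le_log (by linarith) (by linarith)
  have h2 : Real.log (3 * s) = Real.log 3 + Real.log s := Real.log_mul (by norm_num) hs0.ne'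
  have h3 : Real.log 3 ≤ 2 := by
    have := Real.log_le_sub_one_of_pos (show (0 : ℝ) < 3 by norm_num)
    linarith
  have h4 : Real.log (s ^ (19 / 20 : ℝ)) = 19 / 20 * Real.log s := Real.log_rpow hs0 _
  have h5 : Real.log (s ^ (19 / 20 : ℝ)) ≤ s ^ (19 / 20 : ℝ) - 1 :=
    Real.log_le_sub_one_of_pos (Real.rpow_pos_of_pos hs0 _)
  have h6 : 1 ≤ s ^ (19 / 20 : ℝ) := Real.one_le_rpow hs (by norm_num)
  nlinarith

theorem round_log (r : ℝ) :
    (1 - Int.fract r) * Real.log (1 + |((⌊r⌋ : ℤ) : ℝ)|)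
      + Int.fract r * Real.log (1 + |((⌊r⌋ + 1 : ℤ) : ℝ)|) ≤ 2 * |r| ^ (19 / 20 : ℝ) := by
  have hf0 := Int.fract_nonneg r
  have hf1 := Int.fract_lt_one r
  have hl2 : Real.log 2 ≤ 1 := by
    have := Real.log_le_sub_one_of_pos (show (0 : ℝ) < 2 by norm_num)
    linarith
  by_cases h1 : |r| < 1
  · have hp : |r| ≤ |r| ^ (19 / 20 : ℝ) :=
      Real.self_le_rpow_of_le_one (abs_nonneg r) h1.le (by norm_num)
    rcases le_or_gt 0 r with h0 | h0
    · have hfl : ⌊r⌋ = 0 := by
        rw [Int.floor_eq_iff]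
        rw [abs_of_nonneg h0] at h1
        constructor <;> push_cast <;> linarith
      have hfr : Int.fract r = r := by
        rw [Int.fract, hfl]
        push_cast
        ring
      rw [hfl, hfr]
      have e1 : Real.log (1 + |((0 : ℤ) : ℝ)|) = 0 := by simp
      have e2 : Real.log (1 + |((0 + 1 : ℤ) : ℝ)|) = Real.log 2 := by norm_num
      rw [e1, e2]
      rw [abs_of_nonneg h0] at hp ⊢
      nlinarith [mul_le_mul_of_nonneg_left hl2 h0]
    · have hfl : ⌊r⌋ = -1 := by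
        rw [Int.floor_eq_iff]
        rw [abs_of_neg h0] at h1
        constructor <;> push_cast <;> linarith
      have hfr : Int.fract r = r + 1 := by
        rw [Int.fract, hfl]
        push_cast
        ring
      rw [hfl, hfr]
      have e1 : Real.log (1 + |((-1 : ℤ) : ℝ)|) = Real.log 2 := by norm_num
      have e2 : Real.log (1 + |((-1 + 1 : ℤ) : ℝ)|) = 0 := by norm_num
      rw [e1, e2]
      rw [abs_of_neg h0] at hp ⊢
      nlinarith [mul_le_mul_of_nonneg_left hl2 (by linarith : (0 : ℝ) ≤ -r)]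
  · push Not at h1
    have hfl := Int.floor_le r
    have hfl2 := Int.lt_floor_add_one r
    have b1 : |((⌊r⌋ : ℤ) : ℝ)| ≤ |r| + 1 := by
      rw [abs_le]
      constructor
      · linarith [neg_abs_le r]
      · linarith [le_abs_self r]
    have b2 : |((⌊r⌋ + 1 : ℤ) : ℝ)| ≤ |r| + 1 := by
      push_cast
      rw [abs_le]
      constructor
      · linarith [neg_abs_le r]
      · linarith [le_abs_self r]
    have c1 : Real.log (1 + |((⌊r⌋ : ℤ) : ℝ)|) ≤ Real.log (2 + |r|) :=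
      Real.log_le_log (by positivity) (by linarith)
    have c2 : Real.log (1 + |((⌊r⌋ + 1 : ℤ) : ℝ)|) ≤ Real.log (2 + |r|) :=
      Real.log_le_log (by positivity) (by linarith)
    have c3 := log_two_add_le h1
    nlinarith

/-! ## the projection -/

variable {ι : Type} [Fintype ι]

theorem ap_sub (P : ι → ι → ℝ) (x y : ι → ℝ) (i : ι) :
    ap P (fun k => x k - y k) i = ap P x i - ap P y i := by
  simp only [ap, mul_sub, Finset.sum_sub_distrib]

theorem diag_eq {P : ι → ι → ℝ} (hP : IsPr P) (k : ι) : ∑ i, P i k ^ 2 = P k k := by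
  have h := hP.idem k k
  rw [← h]
  refine Finset.sum_congr rfl fun i _ => ?_
  rw [hP.symm k i]
  ring

theorem diag_nonneg {P : ι → ι → ℝ} (hP : IsPr P) (k : ι) : 0 ≤ P k k := by
  rw [← diag_eq hP k]
  exact Finset.sum_nonneg fun i _ => sq_nonneg _

theorem diag_le_one {P : ι → ι → ℝ} (hP : IsPr P) (k : ι) : P k k ≤ 1 := by
  have h1 : P k k ^ 2 ≤ P k k := by
    conv_rhs => rw [← diag_eq hP k]
    exact Finset.single_le_sum (f := fun j => P j k ^ 2) (fun j _ => sq_nonneg _) (mem_univ k)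
  nlinarith [diag_nonneg hP k]

/-- squared norm of the projection of a vector -/
def sqn (P : ι → ι → ℝ) (y : ι → ℝ) : ℝ := ∑ i, (ap P y i) ^ 2

theorem sqn_nonneg (P : ι → ι → ℝ) (y : ι → ℝ) : 0 ≤ sqn P y :=
  Finset.sum_nonneg fun i _ => sq_nonneg _

theorem ap_add_single (P : ι → ι → ℝ) (y : ι → ℝ) (k : ι) (d : ℝ) (i : ι) :
    ap P (fun j => y j + if j = k then d else 0) i = ap P y i + P i k * d := by
  simp only [ap, mul_add, Finset.sum_add_distrib]
  congr 1
  rw [Finset.sum_eq_single k]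
  · simp
  · intro b _ hb
    simp [hb]
  · intro h
    exact absurd (mem_univ k) h

theorem sqn_add_single {P : ι → ι → ℝ} (hP : IsPr P) (y : ι → ℝ) (k : ι) (d : ℝ) :
    sqn P (fun j => y j + if j = k then d else 0)
      = sqn P y + 2 * d * (∑ i, ap P y i * P i k) + d ^ 2 * P k k := by
  unfold sqn
  simp only [ap_add_single]
  rw [← diag_eq hP k, Finset.mul_sum, Finset.mul_sum, ← Finset.sum_add_distrib,
    ← Finset.sum_add_distrib]
  refine Finset.sum_congr rfl fun i _ => ?_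
  ring

/-! ## rounding of a vector -/

theorem round_vec {P : ι → ι → ℝ} (hP : IsPr P) (g : ι → ℝ) (a b c : ℝ) (ha : 0 ≤ a) (hb : 0 ≤ b)
    (hc : 0 < c) (Z : Finset ι) :
    ∃ z : ι → ℤ, (∀ k, k ∉ Z → z k = 0) ∧
      a * lc z + b * sqn P (fun k => c * (z k : ℝ) - rs Z g k)
        ≤ a * ∑ k ∈ Z, 2 * |g k / c| ^ (19 / 20 : ℝ) + b * ∑ k ∈ Z, P k k * (c ^ 2 / 4) := by
  induction Z using Finset.induction_on with
  | empty =>
    refine ⟨fun _ => 0, fun k _ => rfl, ?_⟩
    have h1 : lc (fun _ : ι => (0 : ℤ)) = 0 := by simp [lc]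
    have h2 : sqn P (fun k => c * ((0 : ℤ) : ℝ) - rs ∅ g k) = 0 := by simp [sqn, ap, rs]
    rw [h1, h2]
    simp
  | insert k Z hk ih =>
    obtain ⟨z, hz0, hz⟩ := ih
    set r : ℝ := g k / c with hr
    set n : ℤ := ⌊r⌋ with hn
    set f : ℝ := Int.fract r with hf
    have hf0 : 0 ≤ f := Int.fract_nonneg r
    have hf1 : f < 1 := Int.fract_lt_one r
    have hrn : r = n + f := (Int.floor_add_fract r).symm
    have hgk : g k = c * (n + f) := by
      rw [← hrn, hr]
      field_simp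
    have hzk : z k = 0 := hz0 k hk
    set y : ι → ℝ := fun j => c * (z j : ℝ) - rs Z g j with hy
    have hyk : y k = 0 := by simp [hy, hzk, rs, hk]
    set Cr : ℝ := ∑ i, ap P y i * P i k with hCr
    -- the two candidates
    have key : ∀ v : ℤ, a * lc (Function.update z k v)
        + b * sqn P (fun j => c * ((Function.update z k v) j : ℝ) - rs (insert k Z) g j)
        = a * (lc z + Real.log (1 + |(v : ℝ)|))
          + b * (sqn P y + 2 * (c * v - g k) * Cr + (c * v - g k) ^ 2 * P k k) := by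
      intro v
      have e1 : lc (Function.update z k v) = lc z + Real.log (1 + |(v : ℝ)|) := by
        unfold lc
        rw [← Finset.add_sum_erase univ _ (mem_univ k), ← Finset.add_sum_erase univ _ (mem_univ k)]
        have h0 : Real.log (1 + |((z k : ℤ) : ℝ)|) = 0 := by simp [hzk]
        rw [h0, Function.update_self]
        have h3 : ∑ x ∈ univ.erase k, Real.log (1 + |((Function.update z k v x : ℤ) : ℝ)|)
            = ∑ x ∈ univ.erase k, Real.log (1 + |((z x : ℤ) : ℝ)|) := by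
          refine Finset.sum_congr rfl fun x hx => ?_
          rw [Function.update_of_ne (Finset.ne_of_mem_erase hx)]
        rw [h3]
        ring
      have e2 : (fun j => c * ((Function.update z k v) j : ℝ) - rs (insert k Z) g j)
          = fun j => y j + if j = k then (c * v - g k) else 0 := by
        funext j
        by_cases hj : j = k
        · subst hj
          simp [hyk, rs]
        · simp [hj, hy, rs, Function.update_of_ne hj]
      rw [e1, e2, sqn_add_single hP]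
    have hP0 := diag_nonneg hP k
    have hlog := round_log r
    have hS1 : ∑ j ∈ insert k Z, 2 * |g j / c| ^ (19 / 20 : ℝ)
        = 2 * |r| ^ (19 / 20 : ℝ) + ∑ j ∈ Z, 2 * |g j / c| ^ (19 / 20 : ℝ) := by
      rw [Finset.sum_insert hk]
    have hS2 : ∑ j ∈ insert k Z, P j j * (c ^ 2 / 4)
        = P k k * (c ^ 2 / 4) + ∑ j ∈ Z, P j j * (c ^ 2 / 4) := by
      rw [Finset.sum_insert hk]
    rw [hS1, hS2]
    -- the weighted average of the two candidates
    have havg : (1 - f) * (a * (lc z + Real.log (1 + |((n : ℤ) : ℝ)|))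
          + b * (sqn P y + 2 * (c * n - g k) * Cr + (c * n - g k) ^ 2 * P k k))
        + f * (a * (lc z + Real.log (1 + |((n + 1 : ℤ) : ℝ)|))
          + b * (sqn P y + 2 * (c * (n + 1 : ℤ) - g k) * Cr
            + (c * (n + 1 : ℤ) - g k) ^ 2 * P k k))
        ≤ a * (2 * |r| ^ (19 / 20 : ℝ) + ∑ j ∈ Z, 2 * |g j / c| ^ (19 / 20 : ℝ))
          + b * (P k k * (c ^ 2 / 4) + ∑ j ∈ Z, P j j * (c ^ 2 / 4)) := by
      have e : (1 - f) * (a * (lc z + Real.log (1 + |((n : ℤ) : ℝ)|))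
          + b * (sqn P y + 2 * (c * n - g k) * Cr + (c * n - g k) ^ 2 * P k k))
        + f * (a * (lc z + Real.log (1 + |((n + 1 : ℤ) : ℝ)|))
          + b * (sqn P y + 2 * (c * (n + 1 : ℤ) - g k) * Cr
            + (c * (n + 1 : ℤ) - g k) ^ 2 * P k k))
        = (a * lc z + b * sqn P y)
          + a * ((1 - f) * Real.log (1 + |((n : ℤ) : ℝ)|)
            + f * Real.log (1 + |((n + 1 : ℤ) : ℝ)|))
          + b * (P k k * (c ^ 2 * (f * (1 - f)))) := by
        rw [hgk]
        push_cast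
        ring
      rw [e]
      have h1 : a * ((1 - f) * Real.log (1 + |((n : ℤ) : ℝ)|)
            + f * Real.log (1 + |((n + 1 : ℤ) : ℝ)|)) ≤ a * (2 * |r| ^ (19 / 20 : ℝ)) :=
        mul_le_mul_of_nonneg_left hlog ha
      have h2 : b * (P k k * (c ^ 2 * (f * (1 - f)))) ≤ b * (P k k * (c ^ 2 / 4)) := by
        refine mul_le_mul_of_nonneg_left (mul_le_mul_of_nonneg_left ?_ hP0) hb
        have : f * (1 - f) ≤ 1 / 4 := by nlinarith [sq_nonneg (f - 1 / 2)]
        nlinarith [sq_nonneg c]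
      have h3 := hz
      linarith
    by_cases hcase : a * (lc z + Real.log (1 + |((n : ℤ) : ℝ)|))
          + b * (sqn P y + 2 * (c * n - g k) * Cr + (c * n - g k) ^ 2 * P k k)
        ≤ a * (2 * |r| ^ (19 / 20 : ℝ) + ∑ j ∈ Z, 2 * |g j / c| ^ (19 / 20 : ℝ))
          + b * (P k k * (c ^ 2 / 4) + ∑ j ∈ Z, P j j * (c ^ 2 / 4))
    · refine ⟨Function.update z k n, ?_, ?_⟩
      · intro j hj
        rw [Finset.mem_insert, not_or] at hj
        rw [Function.update_of_ne hj.1]
        exact hz0 j hj.2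
      · rw [key n]
        exact hcase
    · refine ⟨Function.update z k (n + 1), ?_, ?_⟩
      · intro j hj
        rw [Finset.mem_insert, not_or] at hj
        rw [Function.update_of_ne hj.1]
        exact hz0 j hj.2
      · rw [key (n + 1)]
        push Not at hcase
        by_contra hcon
        push Not at hcon
        rcases eq_or_lt_of_le hf0 with h0 | h0
        · rw [← h0] at havg
          simp only [sub_zero, one_mul, zero_mul, add_zero] at havg
          linarith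
        · have p1 := mul_lt_mul_of_pos_left hcase (by linarith : 0 < 1 - f)
          have p2 := mul_lt_mul_of_pos_left hcon h0
          have p3 : (1 - f) * (a * (2 * |r| ^ (19 / 20 : ℝ) + ∑ j ∈ Z, 2 * |g j / c| ^ (19 / 20 : ℝ))
              + b * (P k k * (c ^ 2 / 4) + ∑ j ∈ Z, P j j * (c ^ 2 / 4)))
              + f * (a * (2 * |r| ^ (19 / 20 : ℝ) + ∑ j ∈ Z, 2 * |g j / c| ^ (19 / 20 : ℝ))
              + b * (P k k * (c ^ 2 / 4) + ∑ j ∈ Z, P j j * (c ^ 2 / 4)))
              = a * (2 * |r| ^ (19 / 20 : ℝ) + ∑ j ∈ Z, 2 * |g j / c| ^ (19 / 20 : ℝ))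
              + b * (P k k * (c ^ 2 / 4) + ∑ j ∈ Z, P j j * (c ^ 2 / 4)) := by ring
          linarith

/-! ## the deterministic part -/

theorem final_sums {P : ι → ι → ℝ} (V Z : Finset ι) (g ξ X : ι → ℝ) (m C1 β e4 : ℝ)
    (hβ1 : β ≤ 1) (hC1 : 1 ≤ C1) (hm : 0 < m)
    (hξ : ∀ i ∈ V, |ξ i| ≤ 1) (hmd : m = ∑ i ∈ Z ∩ V, |TT (g i)|)
    (hbad : β / 4 * m < ∑ i ∈ Z ∩ V, ξ i * TT (g i))
    (hcard : (#((Z ∩ V).filter (fun i => 1 / 2 ≤ |g i|)) : ℝ) ≤ C1 * m)
    (he4 : 0 ≤ e4) (hsm : Real.sqrt (C1 * e4) + 4 * e4 ≤ β / 8)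
    (he : ∑ v, (X v - rs Z g v) ^ 2 ≤ e4 * m) :
    (#(V.filter (fun v => 1 < |X v|)) : ℝ) ≤ 2 * C1 * m ∧
      ∑ v ∈ V, |TT (X v)| ≤ 2 * m ∧ β / 8 * m < ∑ v ∈ V, ξ v * TT (X v) := by
  set G : ι → ℝ := rs Z g with hG
  set A : Finset ι := (Z ∩ V).filter (fun i => 1 / 2 ≤ |g i|) with hA
  have hAV : A ⊆ V := fun i hi => (Finset.mem_inter.1 (Finset.mem_filter.1 hi).1).2
  have hsq0 : 0 ≤ Real.sqrt (C1 * e4) := Real.sqrt_nonneg _
  have h4e : 4 * e4 ≤ 1 / 8 := by linarith
  -- outside A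
  have hout : ∀ v ∈ V, v ∉ A → |G v| < 1 / 2 := by
    intro v hv hvA
    by_cases hZ : v ∈ Z
    · have : G v = g v := by simp [hG, rs, hZ]
      rw [this]
      by_contra hcon
      push Not at hcon
      exact hvA (Finset.mem_filter.2 ⟨Finset.mem_inter.2 ⟨hZ, hv⟩, hcon⟩)
    · have : G v = 0 := by simp [hG, rs, hZ]
      rw [this]
      norm_num
  have hTout : ∀ v ∈ V, v ∉ A → TT (G v) = 0 := fun v hv hvA =>
    TT_zero (by linarith [hout v hv hvA])
  have hbig : ∀ v ∈ V, v ∉ A → 1 < |X v| → 1 ≤ 4 * (X v - G v) ^ 2 := by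
    intro v hv hvA h1
    have h2 := hout v hv hvA
    have h3 : |X v| ≤ |X v - G v| + |G v| := by
      have := abs_add_le (X v - G v) (G v)
      simpa using this
    have h4 : 1 / 2 ≤ |X v - G v| := by linarith
    have h5 : (X v - G v) ^ 2 = |X v - G v| ^ 2 := (sq_abs _).symm
    rw [h5]
    nlinarith
  have hdiffout : ∀ v ∈ V, v ∉ A → |TT (X v) - TT (G v)| ≤ 4 * (X v - G v) ^ 2 := by
    intro v hv hvA
    rw [hTout v hv hvA, sub_zero]
    by_cases h1 : 1 < |X v|
    · exact (TT_abs _).trans (hbig v hv hvA h1)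
    · push Not at h1
      rw [TT_zero h1, abs_zero]
      positivity
  -- the sum over A
  have hsumA : ∑ v ∈ A, |TT (X v) - TT (G v)| ≤ Real.sqrt (C1 * e4) * m := by
    have h1 : ∑ v ∈ A, |TT (X v) - TT (G v)| ≤ ∑ v ∈ A, |X v - G v| :=
      Finset.sum_le_sum fun v _ => TT_lip _ _
    have h2 : (∑ v ∈ A, |X v - G v|) ^ 2 ≤ (#A : ℝ) * ∑ v ∈ A, |X v - G v| ^ 2 :=
      sq_sum_le_card_mul_sum_sq
    have h3 : ∑ v ∈ A, |X v - G v| ^ 2 ≤ e4 * m := by
      refine le_trans ?_ he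
      simp only [sq_abs]
      exact Finset.sum_le_sum_of_subset_of_nonneg (Finset.subset_univ _) fun v _ _ => sq_nonneg _
    have h4 : (∑ v ∈ A, |X v - G v|) ^ 2 ≤ (Real.sqrt (C1 * e4) * m) ^ 2 := by
      rw [mul_pow, Real.sq_sqrt (by positivity)]
      refine h2.trans ?_
      calc (#A : ℝ) * ∑ v ∈ A, |X v - G v| ^ 2 ≤ (C1 * m) * (e4 * m) :=
            mul_le_mul hcard h3 (Finset.sum_nonneg fun v _ => by positivity) (by positivity)
        _ = C1 * e4 * m ^ 2 := by ring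
    have h5 : 0 ≤ Real.sqrt (C1 * e4) * m := by positivity
    exact h1.trans (abs_le_of_sq_le_sq' h4 h5).2
  have hsumO : ∑ v ∈ V \ A, |TT (X v) - TT (G v)| ≤ 4 * e4 * m := by
    have h1 : ∑ v ∈ V \ A, |TT (X v) - TT (G v)| ≤ ∑ v ∈ V \ A, 4 * (X v - G v) ^ 2 :=
      Finset.sum_le_sum fun v hv =>
        hdiffout v (Finset.mem_sdiff.1 hv).1 (Finset.mem_sdiff.1 hv).2
    have h2 : ∑ v ∈ V \ A, 4 * (X v - G v) ^ 2 ≤ 4 * ∑ v, (X v - G v) ^ 2 := by
      rw [Finset.mul_sum]
      exact Finset.sum_le_sum_of_subset_of_nonneg (Finset.subset_univ _)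
        fun v _ _ => by positivity
    linarith
  have hsum : ∑ v ∈ V, |TT (X v) - TT (G v)| ≤ β / 8 * m := by
    rw [← Finset.sum_sdiff hAV]
    have : (Real.sqrt (C1 * e4) + 4 * e4) * m ≤ β / 8 * m :=
      mul_le_mul_of_nonneg_right hsm hm.le
    linarith
  -- sums of TT G over V are sums over Z ∩ V
  have hGZ : ∀ v ∈ Z ∩ V, G v = g v := fun v hv => by
    simp [hG, rs, (Finset.mem_inter.1 hv).1]
  have hZV : Z ∩ V ⊆ V := Finset.inter_subset_right
  have hG0 : ∀ v ∈ V, v ∉ Z ∩ V → TT (G v) = 0 := by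
    intro v hv hvZ
    have : v ∉ Z := fun h => hvZ (Finset.mem_inter.2 ⟨h, hv⟩)
    have h0 : G v = 0 := by simp [hG, rs, this]
    rw [h0]
    exact TT_zero (by norm_num)
  have hm2 : ∑ v ∈ V, |TT (G v)| = m := by
    rw [hmd, ← Finset.sum_subset hZV (fun v hv hvZ => by rw [hG0 v hv hvZ, abs_zero])]
    exact Finset.sum_congr rfl fun v hv => by rw [hGZ v hv]
  have hb2 : ∑ v ∈ V, ξ v * TT (G v) = ∑ v ∈ Z ∩ V, ξ v * TT (g v) := by
    rw [← Finset.sum_subset hZV (fun v hv hvZ => by rw [hG0 v hv hvZ, mul_zero])]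
    exact Finset.sum_congr rfl fun v hv => by rw [hGZ v hv]
  refine ⟨?_, ?_, ?_⟩
  · -- the number of large values
    have h1 : V.filter (fun v => 1 < |X v|) ⊆ A ∪ (V \ A).filter (fun v => 1 < |X v|) := by
      intro v hv
      rw [Finset.mem_filter] at hv
      by_cases hvA : v ∈ A
      · exact Finset.mem_union_left _ hvA
      · exact Finset.mem_union_right _
          (Finset.mem_filter.2 ⟨Finset.mem_sdiff.2 ⟨hv.1, hvA⟩, hv.2⟩)
    have h2 : (#(V.filter (fun v => 1 < |X v|)) : ℝ)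
        ≤ #A + #((V \ A).filter (fun v => 1 < |X v|)) := by
      exact_mod_cast (Finset.card_le_card h1).trans (Finset.card_union_le _ _)
    have h3 : (#((V \ A).filter (fun v => 1 < |X v|)) : ℝ) ≤ 4 * (e4 * m) := by
      have h4 : (#((V \ A).filter (fun v => 1 < |X v|)) : ℝ)
          ≤ ∑ v ∈ (V \ A).filter (fun v => 1 < |X v|), 4 * (X v - G v) ^ 2 := by
        rw [← nsmul_one (#((V \ A).filter (fun v => 1 < |X v|))), ← Finset.sum_const]
        refine Finset.sum_le_sum fun v hv => ?_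
        rw [Finset.mem_filter, Finset.mem_sdiff] at hv
        exact hbig v hv.1.1 hv.1.2 hv.2
      have h5 : ∑ v ∈ (V \ A).filter (fun v => 1 < |X v|), 4 * (X v - G v) ^ 2
          ≤ 4 * ∑ v, (X v - G v) ^ 2 := by
        rw [Finset.mul_sum]
        exact Finset.sum_le_sum_of_subset_of_nonneg (Finset.subset_univ _)
          fun v _ _ => by positivity
      linarith
    have h6 : 4 * (e4 * m) ≤ C1 * m := by nlinarith
    linarith
  · have h1 : ∑ v ∈ V, |TT (X v)| ≤ ∑ v ∈ V, (|TT (X v) - TT (G v)| + |TT (G v)|) := by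
      refine Finset.sum_le_sum fun v _ => ?_
      have := abs_add_le (TT (X v) - TT (G v)) (TT (G v))
      simpa using this
    rw [Finset.sum_add_distrib, hm2] at h1
    have h2 : β / 8 * m ≤ m := by nlinarith
    linarith
  · have h1 : ∑ v ∈ V, ξ v * TT (G v) - ∑ v ∈ V, |TT (X v) - TT (G v)|
        ≤ ∑ v ∈ V, ξ v * TT (X v) := by
      rw [← Finset.sum_sub_distrib]
      refine Finset.sum_le_sum fun v hv => ?_
      have h2 : |ξ v * (TT (X v) - TT (G v))| ≤ |TT (X v) - TT (G v)| := by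
        rw [abs_mul]
        have := mul_le_mul_of_nonneg_right (hξ v hv) (abs_nonneg (TT (X v) - TT (G v)))
        simpa using this
      have h3 := (abs_le.1 h2).1
      have h4 : ξ v * (TT (X v) - TT (G v)) = ξ v * TT (X v) - ξ v * TT (G v) := by ring
      linarith
    rw [hb2] at h1
    linarith

/-- 6. reconstruction from a sample -/
theorem st_REC : ST_REC := by
  intro β C1 hβ hβ1 hC1
  refine ⟨β ^ 2 / (4096 * C1), by positivity, ?_, ?_⟩
  · rw [div_le_div_iff₀ (by positivity) (by norm_num)]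
    nlinarith
  set ε : ℝ := β ^ 2 / (4096 * C1) with hεd
  have hε : 0 < ε := by positivity
  have hε1 : ε ≤ 1 := by
    rw [hεd, div_le_one (by positivity)]
    nlinarith
  intro γ C hγ hγ1 hC
  refine ⟨32 * C, fun K hK => ?_⟩
  have hK1 : 1 ≤ K := by linarith
  have hK0 : 0 < K := by linarith
  have hKp : 1 ≤ K ^ 400 := one_le_pow₀ hK1
  have hη0 : 0 < ε * γ / (K ^ 400 * C) := by positivity
  refine ⟨ε * γ / (K ^ 400 * C), K ^ 400 * C / (ε * γ), hη0, ?_, ?_⟩
  · rw [le_div_iff₀ (by positivity)]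
    nlinarith [mul_le_mul hε1 hγ1 hγ.le (by norm_num), mul_le_mul hKp hC (by norm_num) (by positivity)]
  intro ι _ P V Z g ξ m hP hPV hξ hmd hm hbad hγZ hnu hnuV hDD hcard
  set c : ℝ := K ^ 200 with hc
  have hc0 : 0 < c := by positivity
  have hcc : c ^ 2 = K ^ 400 := by rw [hc, ← pow_mul]
  obtain ⟨z, hz0, hz⟩ := round_vec hP g (4 * K ^ 100 / m) (1 / (ε * m)) c (by positivity)
    (by positivity) hc0 Z
  -- first sum
  have hs1 : ∑ k ∈ Z, 2 * |g k / c| ^ (19 / 20 : ℝ) ≤ 2 * (C * m) / K ^ 190 := by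
    have h1 : ∀ k ∈ Z, 2 * |g k / c| ^ (19 / 20 : ℝ) = 2 / K ^ 190 * |g k| ^ (19 / 20 : ℝ) := by
      intro k _
      rw [abs_div, abs_of_pos hc0, Real.div_rpow (abs_nonneg _) hc0.le]
      have h2 : c ^ (19 / 20 : ℝ) = K ^ 190 := by
        rw [hc, ← Real.rpow_natCast K 200, ← Real.rpow_mul hK0.le, ← Real.rpow_natCast K 190]
        norm_num
      rw [h2]
      ring
    rw [Finset.sum_congr rfl h1, ← Finset.mul_sum]
    have h3 : (∑ k ∈ Z, |g k| ^ (19 / 20 : ℝ)) ≤ C * m := hnu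
    calc 2 / K ^ 190 * ∑ k ∈ Z, |g k| ^ (19 / 20 : ℝ) ≤ 2 / K ^ 190 * (C * m) :=
          mul_le_mul_of_nonneg_left h3 (by positivity)
      _ = 2 * (C * m) / K ^ 190 := by ring
  -- cardinalities
  have hpw : ∀ i ∈ Z, γ ≤ |g i| ^ (19 / 20 : ℝ) := by
    intro i hi
    have h1 := hγZ i hi
    have h2 : γ ≤ γ ^ (19 / 20 : ℝ) := Real.self_le_rpow_of_le_one hγ.le hγ1 (by norm_num)
    have h3 : γ ^ (19 / 20 : ℝ) ≤ |g i| ^ (19 / 20 : ℝ) :=
      Real.rpow_le_rpow hγ.le h1 (by norm_num)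
    linarith
  have hcardZ : ∀ Y ⊆ Z, (#Y : ℝ) * γ ≤ nu g Y := by
    intro Y hY
    unfold nu
    rw [← nsmul_eq_mul, ← Finset.sum_const]
    exact Finset.sum_le_sum fun i hi => hpw i (hY hi)
  have hs2 : ∑ k ∈ Z, P k k * (c ^ 2 / 4) ≤ ε * m / 2 := by
    have h1 : ∑ k ∈ Z, P k k ≤ ε * γ / (K ^ 400 * C) * #(Z ∩ V) + #(Z \ V) := by
      rw [← Finset.sum_inter_add_sum_sdiff Z V]
      refine add_le_add ?_ ?_
      · calc ∑ k ∈ Z ∩ V, P k k ≤ ∑ k ∈ Z ∩ V, ε * γ / (K ^ 400 * C) :=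
              Finset.sum_le_sum fun k hk => hPV k (Finset.mem_inter.1 hk).2
          _ = ε * γ / (K ^ 400 * C) * #(Z ∩ V) := by
              rw [Finset.sum_const, nsmul_eq_mul]
              ring
      · calc ∑ k ∈ Z \ V, P k k ≤ ∑ k ∈ Z \ V, (1 : ℝ) :=
              Finset.sum_le_sum fun k _ => diag_le_one hP k
          _ = #(Z \ V) := by simp
    have h2 : (#(Z ∩ V) : ℝ) * γ ≤ C * m := by
      refine (hcardZ _ Finset.inter_subset_left).trans (le_trans ?_ hnu)
      unfold nu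
      exact Finset.sum_le_sum_of_subset_of_nonneg Finset.inter_subset_left
        fun i _ _ => by positivity
    have h3 : (#(Z \ V) : ℝ) * γ ≤ C / (K ^ 400 * C / (ε * γ)) * m :=
      (hcardZ _ Finset.sdiff_subset).trans hnuV
    have h3' : (#(Z \ V) : ℝ) ≤ ε * m / K ^ 400 := by
      have e : C / (K ^ 400 * C / (ε * γ)) * m = (ε * m / K ^ 400) * γ := by
        field_simp
      rw [e] at h3
      exact le_of_mul_le_mul_right h3 hγ
    have h2' : ε * γ / (K ^ 400 * C) * (#(Z ∩ V) : ℝ) ≤ ε * m / K ^ 400 := by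
      have e : ε * γ / (K ^ 400 * C) * (#(Z ∩ V) : ℝ)
          = ε / (K ^ 400 * C) * ((#(Z ∩ V) : ℝ) * γ) := by ring
      rw [e]
      calc ε / (K ^ 400 * C) * ((#(Z ∩ V) : ℝ) * γ) ≤ ε / (K ^ 400 * C) * (C * m) :=
            mul_le_mul_of_nonneg_left h2 (by positivity)
        _ = ε * m / K ^ 400 := by field_simp
    rw [← Finset.sum_mul, hcc]
    calc (∑ k ∈ Z, P k k) * (K ^ 400 / 4) ≤ (ε * m / K ^ 400 + ε * m / K ^ 400) * (K ^ 400 / 4) :=
          mul_le_mul_of_nonneg_right (by linarith) (by positivity)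
      _ = ε * m / 2 := by
          field_simp
          ring
  have hRHS : 4 * K ^ 100 / m * ∑ k ∈ Z, 2 * |g k / c| ^ (19 / 20 : ℝ)
      + 1 / (ε * m) * ∑ k ∈ Z, P k k * (c ^ 2 / 4) ≤ 3 / 4 := by
    have h1 : 4 * K ^ 100 / m * ∑ k ∈ Z, 2 * |g k / c| ^ (19 / 20 : ℝ) ≤ 1 / 4 := by
      calc 4 * K ^ 100 / m * ∑ k ∈ Z, 2 * |g k / c| ^ (19 / 20 : ℝ)
          ≤ 4 * K ^ 100 / m * (2 * (C * m) / K ^ 190) :=
            mul_le_mul_of_nonneg_left hs1 (by positivity)
        _ = 8 * C / K ^ 90 := by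
            field_simp
            ring
        _ ≤ 1 / 4 := by
            rw [div_le_div_iff₀ (by positivity) (by norm_num)]
            have : K ≤ K ^ 90 := by
              calc K = K ^ 1 := (pow_one K).symm
                _ ≤ K ^ 90 := pow_le_pow_right₀ hK1 (by norm_num)
            linarith
    have h2 : 1 / (ε * m) * ∑ k ∈ Z, P k k * (c ^ 2 / 4) ≤ 1 / 2 := by
      calc 1 / (ε * m) * ∑ k ∈ Z, P k k * (c ^ 2 / 4) ≤ 1 / (ε * m) * (ε * m / 2) :=
            mul_le_mul_of_nonneg_left hs2 (by positivity)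
        _ = 1 / 2 := by field_simp
    linarith
  have hz1 : 4 * K ^ 100 / m * lc z
      + 1 / (ε * m) * sqn P (fun k => c * (z k : ℝ) - rs Z g k) ≤ 3 / 4 := hz.trans hRHS
  have hlc0 : 0 ≤ lc z := by
    unfold lc
    exact Finset.sum_nonneg fun k _ => Real.log_nonneg (by linarith [abs_nonneg ((z k : ℤ) : ℝ)])
  have hsq0 := sqn_nonneg P (fun k => c * (z k : ℝ) - rs Z g k)
  have hA1 : 4 * K ^ 100 / m * lc z ≤ 1 := by
    have : 0 ≤ 1 / (ε * m) * sqn P (fun k => c * (z k : ℝ) - rs Z g k) := by positivity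
    linarith
  have hA2 : 1 / (ε * m) * sqn P (fun k => c * (z k : ℝ) - rs Z g k) ≤ 1 := by
    have : 0 ≤ 4 * K ^ 100 / m * lc z := by positivity
    linarith
  have hlc : lc z ≤ m / (4 * K ^ 100) := by
    rw [le_div_iff₀ (by positivity)]
    have e : 4 * K ^ 100 / m * lc z = lc z * (4 * K ^ 100) / m := by ring
    rw [e, div_le_one hm] at hA1
    exact hA1
  have hsq : sqn P (fun k => c * (z k : ℝ) - rs Z g k) ≤ ε * m := by
    have e : 1 / (ε * m) * sqn P (fun k => c * (z k : ℝ) - rs Z g k)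
        = sqn P (fun k => c * (z k : ℝ) - rs Z g k) / (ε * m) := by ring
    rw [e, div_le_one (by positivity)] at hA2
    exact hA2
  -- the error
  have herr : ∑ v, (fd P K z v - rs Z g v) ^ 2 ≤ 4 * ε * m := by
    have h1 : ∀ v, (fd P K z v - rs Z g v) ^ 2
        ≤ 2 * (ap P (fun k => c * (z k : ℝ) - rs Z g k) v) ^ 2
          + 2 * (rs Z g v - ap P (rs Z g) v) ^ 2 := by
      intro v
      have h2 : fd P K z v - rs Z g v
          = ap P (fun k => c * (z k : ℝ) - rs Z g k) v - (rs Z g v - ap P (rs Z g) v) := by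
        rw [ap_sub P (fun k => c * (z k : ℝ)) (rs Z g) v]
        simp only [fd, hc]
        ring
      rw [h2]
      nlinarith [sq_nonneg (ap P (fun k => c * (z k : ℝ) - rs Z g k) v
        + (rs Z g v - ap P (rs Z g) v))]
    have h3 : ∑ v, (fd P K z v - rs Z g v) ^ 2
        ≤ 2 * sqn P (fun k => c * (z k : ℝ) - rs Z g k) + 2 * DD P g Z := by
      unfold sqn DD
      rw [Finset.mul_sum, Finset.mul_sum, ← Finset.sum_add_distrib]
      exact Finset.sum_le_sum fun v _ => h1 v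
    linarith
  have hsm : Real.sqrt (C1 * (4 * ε)) + 4 * (4 * ε) ≤ β / 8 := by
    have h1 : C1 * (4 * ε) = (β / 32) ^ 2 := by
      rw [hεd]
      field_simp
      ring
    have h2 : 4 * (4 * ε) ≤ β / 16 := by
      rw [hεd]
      have : β ^ 2 / (4096 * C1) ≤ β / 4096 := by
        rw [div_le_div_iff₀ (by positivity) (by norm_num)]
        nlinarith [mul_pos hβ hβ, mul_le_mul_of_nonneg_left hβ1 hβ.le,
          mul_le_mul_of_nonneg_left hC1 hβ.le]
      linarith
    rw [h1, Real.sqrt_sq (by positivity)]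
    linarith
  have hfin := final_sums (P := P) V Z g ξ (fd P K z) m C1 β (4 * ε) hβ1 hC1 hm hξ hmd hbad hcard
    (by positivity) hsm herr
  exact ⟨z, hz0, hlc, hfin.1, hfin.2.1, hfin.2.2⟩

end

end Pool.Agent.Helper3.ZS
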